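import Mathlib

/-!
# Properties `(Δ)` and `(L_b)` for `BUC + cos(t²) BUC`
-/

open Set Filter Topology MeasureTheory
open scoped Pointwise

namespace Pool.Agent.Results.MP_ee4cf4_an.DifferencesCos

variable {X : Type*} [NormedAddCommGroup X] [NormedSpace ℝ X]

/-- The admissible intervals `[α, ∞)`, `(α, ∞)`, `ℝ`. -/
def Admissible (J : Set ℝ) : Prop := (∃ α, J = Ici α) ∨ (∃ α, J = Ioi α) ∨ J = univ

/-- `f ∈ BUC(J, X)`: bounded and uniformly continuous on `J`. -/
def BUC (J : Set ℝ) (f : ℝ → X) : Prop := (∃ C, ∀ t ∈ J, ‖f t‖ ≤ C) ∧ UniformContinuousOn f J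

/-- `g ∈ BUC(J, X) + cos(t²) BUC(J, X)`. -/
def ACos (J : Set ℝ) (g : ℝ → X) : Prop :=
  ∃ u v : ℝ → X, BUC J u ∧ BUC J v ∧ ∀ t ∈ J, g t = u t + Real.cos (t ^ 2) • v t

/-- `f ∈ L¹_loc(J, X)`: integrable on all compact subintervals of `J`. -/
def LocInt (J : Set ℝ) (f : ℝ → X) : Prop := ∀ a b : ℝ, Icc a b ⊆ J → IntegrableOn f (Icc a b)

/-- `f ∈ L^∞(J, X)`: measurable and bounded everywhere on `J`. -/
def LInfty (J : Set ℝ) (f : ℝ → X) : Prop :=
  AEStronglyMeasurable f (volume.restrict J) ∧ ∃ C, ∀ t ∈ J, ‖f t‖ ≤ C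

/-- the difference `Δ_a f` -/
def diff (a : ℝ) (f : ℝ → X) (t : ℝ) : X := f (t + a) - f t

/-- the mean `M_h f` -/
noncomputable def mean (h : ℝ) (f : ℝ → X) (t : ℝ) : X := h⁻¹ • ∫ s in t..(t + h), f s

variable {J : Set ℝ}

lemma Admissible.up (hJ : Admissible J) {s t : ℝ} (hs : s ∈ J) (hst : s ≤ t) : t ∈ J := by
  rcases hJ with ⟨α, rfl⟩ | ⟨α, rfl⟩ | rfl
  · exact le_trans hs hst
  · exact lt_of_lt_of_le hs hst
  · trivial

lemma Admissible.back (hJ : Admissible J) : ∃ T : ℝ, ∀ s ∈ J, T ≤ |s| → s - 1 ∈ J := by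
  rcases hJ with ⟨α, rfl⟩ | ⟨α, rfl⟩ | rfl
  · refine ⟨|α| + 1, fun s hs hT => ?_⟩
    have hs' : α ≤ s := hs
    have := neg_abs_le α
    have := le_abs_self α
    rcases le_or_gt 0 s with h | h
    · rw [abs_of_nonneg h] at hT
      show α ≤ s - 1
      linarith
    · rw [abs_of_neg h] at hT
      linarith
  · refine ⟨|α| + 2, fun s hs hT => ?_⟩
    have hs' : α < s := hs
    have := neg_abs_le α
    have := le_abs_self α
    rcases le_or_gt 0 s with h | h
    · rw [abs_of_nonneg h] at hT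
      show α < s - 1
      linarith
    · rw [abs_of_neg h] at hT
      linarith
  · exact ⟨0, fun s _ _ => trivial⟩

omit [NormedSpace ℝ X] in
lemma BUC.add {f g : ℝ → X} (hf : BUC J f) (hg : BUC J g) : BUC J (fun t => f t + g t) := by
  obtain ⟨⟨C, hC⟩, hfu⟩ := hf
  obtain ⟨⟨D, hD⟩, hgu⟩ := hg
  refine ⟨⟨C + D, fun t ht => (norm_add_le _ _).trans (add_le_add (hC t ht) (hD t ht))⟩, ?_⟩
  rw [uniformContinuousOn_iff_restrict] at hfu hgu ⊢
  exact hfu.add hgu

omit [NormedSpace ℝ X] in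
lemma BUC.sub {f g : ℝ → X} (hf : BUC J f) (hg : BUC J g) : BUC J (fun t => f t - g t) := by
  obtain ⟨⟨C, hC⟩, hfu⟩ := hf
  obtain ⟨⟨D, hD⟩, hgu⟩ := hg
  refine ⟨⟨C + D, fun t ht => (norm_sub_le _ _).trans (add_le_add (hC t ht) (hD t ht))⟩, ?_⟩
  rw [uniformContinuousOn_iff_restrict] at hfu hgu ⊢
  exact hfu.sub hgu

omit [NormedSpace ℝ X] in
lemma BUC.congr {f g : ℝ → X} (hf : BUC J f) (h : ∀ t ∈ J, g t = f t) : BUC J g := by
  obtain ⟨⟨C, hC⟩, hfu⟩ := hf
  exact ⟨⟨C, fun t ht => by rw [h t ht]; exact hC t ht⟩,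
    hfu.congr (fun t ht => (h t ht).symm)⟩

lemma BUC.acos {f : ℝ → X} (hf : BUC J f) : ACos J f :=
  ⟨f, fun _ => 0, hf, ⟨⟨0, fun t _ => by simp⟩, uniformContinuous_const.uniformContinuousOn⟩,
    fun t _ => by simp⟩

lemma ACos.sub {f g : ℝ → X} (hf : ACos J f) (hg : ACos J g) : ACos J (fun t => f t - g t) := by
  obtain ⟨u, v, hu, hv, h⟩ := hf
  obtain ⟨u', v', hu', hv', h'⟩ := hg
  refine ⟨fun t => u t - u' t, fun t => v t - v' t, hu.sub hu', hv.sub hv', fun t ht => ?_⟩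
  simp only [h t ht, h' t ht, smul_sub]
  abel

lemma ACos.congr {f g : ℝ → X} (hf : ACos J f) (h : ∀ t ∈ J, g t = f t) : ACos J g := by
  obtain ⟨u, v, hu, hv, h'⟩ := hf
  exact ⟨u, v, hu, hv, fun t ht => by rw [h t ht, h' t ht]⟩

/-! ### the `cos` part vanishes at infinity -/

lemma phase {δ : ℝ} (hδ : 0 < δ) : ∃ T : ℝ, ∀ t : ℝ, T ≤ |t| → ∀ φ : ℝ,
    ∃ p ∈ Icc t (t + δ), ∃ k : ℤ, p ^ 2 = φ + 2 * Real.pi * k := by
  refine ⟨(2 * Real.pi + δ ^ 2) / (2 * δ), fun t ht φ => ?_⟩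
  have hpi := Real.pi_pos
  have hlen : 2 * Real.pi ≤ |(t + δ) ^ 2 - t ^ 2| := by
    rw [div_le_iff₀ (by positivity)] at ht
    have e : (t + δ) ^ 2 - t ^ 2 = 2 * δ * t + δ ^ 2 := by ring
    rw [e]
    rcases le_or_gt 0 t with h | h
    · rw [abs_of_nonneg h] at ht
      rw [abs_of_nonneg (by positivity)]
      nlinarith
    · rw [abs_of_neg h] at ht
      rw [abs_of_neg (by nlinarith)]
      nlinarith
  set m := min (t ^ 2) ((t + δ) ^ 2) with hm
  set M := max (t ^ 2) ((t + δ) ^ 2) with hM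
  have hMm : m + 2 * Real.pi ≤ M := by
    have : M - m = |(t + δ) ^ 2 - t ^ 2| := by
      rw [hM, hm, max_sub_min_eq_abs]
    linarith
  -- the representative
  set k : ℤ := ⌈(m - φ) / (2 * Real.pi)⌉ with hk
  have h1 : (m - φ) / (2 * Real.pi) ≤ k := Int.le_ceil _
  have h2 : (k : ℝ) < (m - φ) / (2 * Real.pi) + 1 := Int.ceil_lt_add_one _
  rw [div_le_iff₀ (by positivity)] at h1
  have h3 : (k : ℝ) * (2 * Real.pi) < m - φ + 2 * Real.pi := by
    have := mul_lt_mul_of_pos_right h2 (show (0 : ℝ) < 2 * Real.pi by positivity)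
    rwa [add_mul, one_mul, div_mul_cancel₀ _ (by positivity)] at this
  have hmem : φ + 2 * Real.pi * k ∈ Icc m M := ⟨by linarith, by linarith⟩
  have hc : ContinuousOn (fun p : ℝ => p ^ 2) (Icc t (t + δ)) := by fun_prop
  have hle : t ≤ t + δ := by linarith
  rw [← uIcc_of_le hle] at hc
  have himg := intermediate_value_uIcc hc
  rw [uIcc_of_le hle] at himg
  obtain ⟨p, hp, hp2⟩ := himg (show φ + 2 * Real.pi * k ∈ uIcc (t ^ 2) ((t + δ) ^ 2) from hmem)
  exact ⟨p, hp, k, hp2⟩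

lemma vanish_aux (hJ : Admissible J) {g u v ub vb : ℝ → X} {b : ℝ} (hb : 0 < b) (hb1 : b ≤ 1)
    (hu : BUC J u) (hv : BUC J v) (hub : BUC J ub)
    (hg : ∀ t ∈ J, g t = u t + Real.cos (t ^ 2) • v t)
    (hgb : ∀ t ∈ J, g (t + b) = ub t + Real.cos (t ^ 2) • vb t) :
    ∀ ε > 0, ∃ T : ℝ, ∀ t ∈ J, T ≤ |t| →
      ‖Real.sin (2 * b * t + b ^ 2) • v (t + b)‖ ≤ ε := by
  intro ε hε
  obtain ⟨⟨M₀, hM₀⟩, hvu⟩ := hv
  set M := max M₀ 1 with hM
  have hM1 : 1 ≤ M := le_max_right _ _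
  have hMv : ∀ t ∈ J, ‖v t‖ ≤ M := fun t ht => (hM₀ t ht).trans (le_max_left _ _)
  obtain ⟨-, huu⟩ := hu
  obtain ⟨-, hubu⟩ := hub
  rw [Metric.uniformContinuousOn_iff] at hvu huu hubu
  obtain ⟨δ₁, hδ₁, h₁⟩ := hvu (ε / 4) (by positivity)
  obtain ⟨δ₂, hδ₂, h₂⟩ := huu (ε / 4) (by positivity)
  obtain ⟨δ₃, hδ₃, h₃⟩ := hubu (ε / 4) (by positivity)
  set δ := min (min (δ₁ / 2) (δ₂ / 2)) (min (δ₃ / 2) (ε / (4 * M))) with hδdef
  have hδ : 0 < δ := by
    rw [hδdef]
    refine lt_min (lt_min (by positivity) (by positivity)) (lt_min (by positivity) (by positivity))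
  have hd1 : δ < δ₁ := by
    have : δ ≤ δ₁ / 2 := (min_le_left _ _).trans (min_le_left _ _)
    linarith
  have hd2 : δ < δ₂ := by
    have : δ ≤ δ₂ / 2 := (min_le_left _ _).trans (min_le_right _ _)
    linarith
  have hd3 : δ < δ₃ := by
    have : δ ≤ δ₃ / 2 := (min_le_right _ _).trans (min_le_left _ _)
    linarith
  have hd4 : δ * M ≤ ε / 4 := by
    have : δ ≤ ε / (4 * M) := (min_le_right _ _).trans (min_le_right _ _)
    rw [le_div_iff₀ (by positivity)] at this
    linarith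
  obtain ⟨T, hT⟩ := phase hδ
  refine ⟨T, fun t ht htT => ?_⟩
  obtain ⟨p, hp, k, hpk⟩ := hT t htT (Real.pi / 2)
  obtain ⟨q, hq, l, hql⟩ := hT t htT (-(Real.pi / 2))
  have hpJ : p ∈ J := hJ.up ht hp.1
  have hqJ : q ∈ J := hJ.up ht hq.1
  have htb : t + b ∈ J := hJ.up ht (by linarith)
  have hpb : p + b ∈ J := hJ.up hpJ (by linarith)
  have hqb : q + b ∈ J := hJ.up hqJ (by linarith)
  have hcp : Real.cos (p ^ 2) = 0 := by
    rw [hpk, show Real.pi / 2 + 2 * Real.pi * k = Real.pi / 2 + k * (2 * Real.pi) by ring,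
      Real.cos_add_int_mul_two_pi, Real.cos_pi_div_two]
  have hsp : Real.sin (p ^ 2) = 1 := by
    rw [hpk, show Real.pi / 2 + 2 * Real.pi * k = Real.pi / 2 + k * (2 * Real.pi) by ring,
      Real.sin_add_int_mul_two_pi, Real.sin_pi_div_two]
  have hcq : Real.cos (q ^ 2) = 0 := by
    rw [hql, show -(Real.pi / 2) + 2 * Real.pi * l = -(Real.pi / 2) + l * (2 * Real.pi) by ring,
      Real.cos_add_int_mul_two_pi, Real.cos_neg, Real.cos_pi_div_two]
  have hsq : Real.sin (q ^ 2) = -1 := by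
    rw [hql, show -(Real.pi / 2) + 2 * Real.pi * l = -(Real.pi / 2) + l * (2 * Real.pi) by ring,
      Real.sin_add_int_mul_two_pi, Real.sin_neg, Real.sin_pi_div_two]
  have ep : Real.sin (2 * b * p + b ^ 2) • v (p + b) = u (p + b) - ub p := by
    have e1 := hg (p + b) hpb
    have e2 := hgb p hpJ
    have e3 : Real.cos ((p + b) ^ 2) = -Real.sin (2 * b * p + b ^ 2) := by
      rw [show (p + b) ^ 2 = p ^ 2 + (2 * b * p + b ^ 2) by ring, Real.cos_add, hcp, hsp]; ring
    rw [e3, neg_smul] at e1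
    rw [hcp, zero_smul, add_zero] at e2
    rw [e2] at e1
    rw [e1]; abel
  have eq : Real.sin (2 * b * q + b ^ 2) • v (q + b) = ub q - u (q + b) := by
    have e1 := hg (q + b) hqb
    have e2 := hgb q hqJ
    have e3 : Real.cos ((q + b) ^ 2) = Real.sin (2 * b * q + b ^ 2) := by
      rw [show (q + b) ^ 2 = q ^ 2 + (2 * b * q + b ^ 2) by ring, Real.cos_add, hcq, hsq]; ring
    rw [e3] at e1
    rw [hcq, zero_smul, add_zero] at e2
    rw [e2] at e1
    rw [e1]; abel
  have near : ∀ r ∈ Icc t (t + δ), ‖Real.sin (2 * b * t + b ^ 2) • v (t + b) -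
      Real.sin (2 * b * r + b ^ 2) • v (r + b)‖ ≤ 2 * (δ * M) + ε / 4 := by
    intro r hr
    have hrb : r + b ∈ J := hJ.up htb (by linarith [hr.1])
    have e : Real.sin (2 * b * t + b ^ 2) • v (t + b) - Real.sin (2 * b * r + b ^ 2) • v (r + b) =
        Real.sin (2 * b * t + b ^ 2) • (v (t + b) - v (r + b)) +
        (Real.sin (2 * b * t + b ^ 2) - Real.sin (2 * b * r + b ^ 2)) • v (r + b) := by
      rw [smul_sub, sub_smul]; abel
    rw [e]
    have hrt : |t - r| ≤ δ := by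
      rw [abs_le]; constructor <;> linarith [hr.1, hr.2]
    have n1 : ‖Real.sin (2 * b * t + b ^ 2) • (v (t + b) - v (r + b))‖ ≤ ε / 4 := by
      rw [norm_smul, Real.norm_eq_abs]
      have h5 := h₁ (t + b) htb (r + b) hrb (by
        rw [Real.dist_eq, show t + b - (r + b) = t - r by ring]; linarith)
      rw [dist_eq_norm] at h5
      have h6 := Real.abs_sin_le_one (2 * b * t + b ^ 2)
      have h7 := norm_nonneg (v (t + b) - v (r + b))
      nlinarith
    have n2 : ‖(Real.sin (2 * b * t + b ^ 2) - Real.sin (2 * b * r + b ^ 2)) • v (r + b)‖ ≤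
        2 * (δ * M) := by
      rw [norm_smul, Real.norm_eq_abs]
      have h5 : |Real.sin (2 * b * t + b ^ 2) - Real.sin (2 * b * r + b ^ 2)| ≤
          |(2 * b * t + b ^ 2) - (2 * b * r + b ^ 2)| := by
        have := Real.lipschitzWith_sin.dist_le_mul (2 * b * t + b ^ 2) (2 * b * r + b ^ 2)
        simpa [Real.dist_eq] using this
      have h6 : |(2 * b * t + b ^ 2) - (2 * b * r + b ^ 2)| ≤ 2 * δ := by
        rw [show (2 * b * t + b ^ 2) - (2 * b * r + b ^ 2) = 2 * b * (t - r) by ring, abs_mul,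
          abs_of_pos (by positivity : (0 : ℝ) < 2 * b)]
        nlinarith [abs_nonneg (t - r)]
      calc _ ≤ (2 * δ) * M := mul_le_mul (h5.trans h6) (hMv _ hrb) (norm_nonneg _) (by positivity)
        _ = 2 * (δ * M) := by ring
    exact (norm_add_le _ _).trans (by linarith)
  have np := near p hp
  have nq := near q hq
  have hpq : |p - q| ≤ δ := by
    rw [abs_le]; constructor <;> linarith [hp.1, hp.2, hq.1, hq.2]
  have nsum : ‖Real.sin (2 * b * p + b ^ 2) • v (p + b) + Real.sin (2 * b * q + b ^ 2) • v (q + b)‖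
      ≤ ε / 4 + ε / 4 := by
    rw [ep, eq]
    have h5 := h₂ (p + b) hpb (q + b) hqb (by
      rw [Real.dist_eq, show p + b - (q + b) = p - q by ring]; linarith)
    have h6 := h₃ q hqJ p hpJ (by rw [Real.dist_eq, abs_sub_comm]; linarith)
    rw [dist_eq_norm] at h5 h6
    calc ‖u (p + b) - ub p + (ub q - u (q + b))‖ =
        ‖(u (p + b) - u (q + b)) + (ub q - ub p)‖ := by congr 1; abel
      _ ≤ _ := (norm_add_le _ _).trans (add_le_add h5.le h6.le)
  set A := Real.sin (2 * b * t + b ^ 2) • v (t + b) with hA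
  set P := Real.sin (2 * b * p + b ^ 2) • v (p + b) with hP
  set Q := Real.sin (2 * b * q + b ^ 2) • v (q + b) with hQ
  have e : (2 : ℝ) • A = (A - P) + (A - Q) + (P + Q) := by rw [two_smul]; abel
  have n : ‖(2 : ℝ) • A‖ ≤ (2 * (δ * M) + ε / 4) + (2 * (δ * M) + ε / 4) + (ε / 4 + ε / 4) := by
    rw [e]; exact norm_add₃_le.trans (add_le_add (add_le_add np nq) nsum)
  rw [norm_smul, Real.norm_eq_abs, abs_of_pos (by norm_num : (0 : ℝ) < 2)] at n
  linarith

lemma trig (x : ℝ) : Real.sin (1 / 2) / 2 ≤ |Real.sin (2 * x - 1 / 2)| + |Real.sin x| := by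
  have h1 : Real.sin (1 / 2) = Real.sin (2 * x) * Real.cos (2 * x - 1 / 2) -
      Real.cos (2 * x) * Real.sin (2 * x - 1 / 2) := by
    rw [← Real.sin_sub]; congr 1; ring
  have h2 : Real.sin (1 / 2) ≤ |Real.sin (2 * x)| + |Real.sin (2 * x - 1 / 2)| := by
    rw [h1]
    have a1 := Real.abs_cos_le_one (2 * x - 1 / 2)
    have a2 := Real.abs_cos_le_one (2 * x)
    have b1 : Real.sin (2 * x) * Real.cos (2 * x - 1 / 2) ≤ |Real.sin (2 * x)| := by
      refine (le_abs_self _).trans ?_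
      rw [abs_mul]
      nlinarith [abs_nonneg (Real.sin (2 * x))]
    have b2 : -(Real.cos (2 * x) * Real.sin (2 * x - 1 / 2)) ≤ |Real.sin (2 * x - 1 / 2)| := by
      refine (neg_le_abs _).trans ?_
      rw [abs_mul]
      nlinarith [abs_nonneg (Real.sin (2 * x - 1 / 2))]
    linarith
  have h3 : |Real.sin (2 * x)| ≤ 2 * |Real.sin x| := by
    rw [Real.sin_two_mul, abs_mul, abs_mul, abs_two]
    have := Real.abs_cos_le_one x
    nlinarith [abs_nonneg (Real.sin x)]
  have h4 := abs_nonneg (Real.sin (2 * x - 1 / 2))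
  linarith

lemma vanish (hJ : Admissible J) {g u v : ℝ → X} (hu : BUC J u) (hv : BUC J v)
    (hg : ∀ t ∈ J, g t = u t + Real.cos (t ^ 2) • v t)
    (h1 : ACos J (fun t => g (t + 1))) (h2 : ACos J (fun t => g (t + 1 / 2))) :
    ∀ ε > 0, ∃ T : ℝ, ∀ t ∈ J, T ≤ |t| → ‖v t‖ ≤ ε := by
  intro ε hε
  have hs : 0 < Real.sin (1 / 2) := Real.sin_pos_of_pos_of_lt_pi (by norm_num)
    (by linarith [Real.pi_gt_three])
  obtain ⟨u1, v1, hu1, -, hg1⟩ := h1
  obtain ⟨u2, v2, hu2, -, hg2⟩ := h2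
  obtain ⟨T1, hT1⟩ := vanish_aux hJ (b := 1) one_pos le_rfl hu hv hu1 hg hg1
    (ε * (Real.sin (1 / 2) / 4)) (by positivity)
  obtain ⟨T2, hT2⟩ := vanish_aux hJ (b := 1 / 2) (by norm_num) (by norm_num) hu hv hu2 hg hg2
    (ε * (Real.sin (1 / 2) / 4)) (by positivity)
  obtain ⟨T3, hT3⟩ := hJ.back
  refine ⟨max (max (T1 + 1) (T2 + 1)) T3, fun t ht hT => ?_⟩
  have hb := hT3 t ht ((le_max_right _ _).trans hT)
  have ha1 : T1 ≤ |t - 1| := by
    have : T1 + 1 ≤ |t| := ((le_max_left _ _).trans (le_max_left _ _)).trans hT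
    have := abs_sub_abs_le_abs_sub t 1
    rw [abs_one] at this
    linarith
  have ha2 : T2 ≤ |t - 1 / 2| := by
    have : T2 + 1 ≤ |t| := ((le_max_right _ _).trans (le_max_left _ _)).trans hT
    have := abs_sub_abs_le_abs_sub t (1 / 2)
    rw [abs_of_pos (by norm_num : (0 : ℝ) < 1 / 2)] at this
    linarith
  have e1 := hT1 (t - 1) hb ha1
  have e2 := hT2 (t - 1 / 2) (hJ.up hb (by linarith)) ha2
  rw [sub_add_cancel, norm_smul, Real.norm_eq_abs,
    show 2 * 1 * (t - 1) + (1 : ℝ) ^ 2 = 2 * (t - 1 / 4) - 1 / 2 by ring] at e1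
  rw [sub_add_cancel, norm_smul, Real.norm_eq_abs,
    show 2 * (1 / 2) * (t - 1 / 2) + (1 / 2 : ℝ) ^ 2 = t - 1 / 4 by ring] at e2
  have e3 := trig (t - 1 / 4)
  have hn := norm_nonneg (v t)
  have e4 : Real.sin (1 / 2) / 2 * ‖v t‖ ≤ ε * (Real.sin (1 / 2) / 4) + ε * (Real.sin (1 / 2) / 4) := by
    calc Real.sin (1 / 2) / 2 * ‖v t‖ ≤
        (|Real.sin (2 * (t - 1 / 4) - 1 / 2)| + |Real.sin (t - 1 / 4)|) * ‖v t‖ :=
          mul_le_mul_of_nonneg_right e3 hn
      _ ≤ _ := by rw [add_mul]; linarith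
  have e5 : Real.sin (1 / 2) / 2 * ‖v t‖ ≤ Real.sin (1 / 2) / 2 * ε := by linarith
  exact le_of_mul_le_mul_left e5 (by positivity)

lemma cos_mul_buc {v : ℝ → X} (hv : BUC J v)
    (h : ∀ ε > 0, ∃ T : ℝ, ∀ t ∈ J, T ≤ |t| → ‖v t‖ ≤ ε) :
    BUC J (fun t => Real.cos (t ^ 2) • v t) := by
  obtain ⟨⟨M₀, hM₀⟩, hvu⟩ := hv
  set M := max M₀ 1 with hM
  have hM1 : 1 ≤ M := le_max_right _ _
  have hMv : ∀ t ∈ J, ‖v t‖ ≤ M := fun t ht => (hM₀ t ht).trans (le_max_left _ _)
  refine ⟨⟨M, fun t ht => ?_⟩, ?_⟩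
  · rw [norm_smul, Real.norm_eq_abs]
    have := Real.abs_cos_le_one (t ^ 2)
    have := hMv t ht
    nlinarith [norm_nonneg (v t)]
  · rw [Metric.uniformContinuousOn_iff]
    rw [Metric.uniformContinuousOn_iff] at hvu
    intro ε hε
    obtain ⟨T₀, hT₀⟩ := h (ε / 4) (by positivity)
    set T := max T₀ 1 with hTd
    have hT1 : 1 ≤ T := le_max_right _ _
    have hT : ∀ t ∈ J, T ≤ |t| → ‖v t‖ ≤ ε / 4 := fun t ht h' =>
      hT₀ t ht ((le_max_left _ _).trans h')
    obtain ⟨δ₁, hδ₁, h₁⟩ := hvu (ε / 2) (by positivity)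
    refine ⟨min (min δ₁ 1) (ε / (2 * ((2 * T + 3) * M))), by positivity, ?_⟩
    intro x hx y hy hxy
    have hd1 : dist x y < δ₁ := hxy.trans_le ((min_le_left _ _).trans (min_le_left _ _))
    have hd2 : dist x y < 1 := hxy.trans_le ((min_le_left _ _).trans (min_le_right _ _))
    have hd3 : dist x y < ε / (2 * ((2 * T + 3) * M)) := hxy.trans_le (min_le_right _ _)
    rw [Real.dist_eq] at hd1 hd2 hd3
    rw [dist_eq_norm]
    have hcx := Real.abs_cos_le_one (x ^ 2)
    have hcy := Real.abs_cos_le_one (y ^ 2)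
    by_cases hxT : T + 1 ≤ |x|
    · have hyT : T ≤ |y| := by
        have := abs_sub_abs_le_abs_sub x y
        linarith
      have n1 := hT x hx (by linarith)
      have n2 := hT y hy hyT
      calc ‖Real.cos (x ^ 2) • v x - Real.cos (y ^ 2) • v y‖ ≤
          ‖Real.cos (x ^ 2) • v x‖ + ‖Real.cos (y ^ 2) • v y‖ := norm_sub_le _ _
        _ ≤ ε / 4 + ε / 4 := by
          rw [norm_smul, norm_smul, Real.norm_eq_abs, Real.norm_eq_abs]
          have := norm_nonneg (v x)
          have := norm_nonneg (v y)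
          apply add_le_add <;> nlinarith
        _ < ε := by linarith
    · push Not at hxT
      have hyT : |y| < T + 2 := by
        have := abs_sub_abs_le_abs_sub y x
        rw [abs_sub_comm] at this
        linarith
      have e : Real.cos (x ^ 2) • v x - Real.cos (y ^ 2) • v y =
          Real.cos (x ^ 2) • (v x - v y) + (Real.cos (x ^ 2) - Real.cos (y ^ 2)) • v y := by
        rw [smul_sub, sub_smul]; abel
      rw [e]
      have n1 : ‖Real.cos (x ^ 2) • (v x - v y)‖ < ε / 2 := by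
        rw [norm_smul, Real.norm_eq_abs]
        have h5 := h₁ x hx y hy (by rw [Real.dist_eq]; exact hd1)
        rw [dist_eq_norm] at h5
        nlinarith [norm_nonneg (v x - v y)]
      have n2 : ‖(Real.cos (x ^ 2) - Real.cos (y ^ 2)) • v y‖ ≤ ε / 2 := by
        rw [norm_smul, Real.norm_eq_abs]
        have h5 : |Real.cos (x ^ 2) - Real.cos (y ^ 2)| ≤ |x ^ 2 - y ^ 2| := by
          have := Real.lipschitzWith_cos.dist_le_mul (x ^ 2) (y ^ 2)
          simpa [Real.dist_eq] using this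
        have h6 : |x ^ 2 - y ^ 2| ≤ (2 * T + 3) * |x - y| := by
          rw [show x ^ 2 - y ^ 2 = (x + y) * (x - y) by ring, abs_mul]
          apply mul_le_mul_of_nonneg_right _ (abs_nonneg _)
          calc |x + y| ≤ |x| + |y| := abs_add_le _ _
            _ ≤ _ := by linarith
        have h7 : (2 * T + 3) * |x - y| * M ≤ ε / 2 := by
          rw [lt_div_iff₀ (by positivity)] at hd3
          nlinarith
        calc _ ≤ ((2 * T + 3) * |x - y|) * M :=
              mul_le_mul (h5.trans h6) (hMv y hy) (norm_nonneg _) (by positivity)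
          _ ≤ ε / 2 := h7
      exact (norm_add_le _ _).trans_lt (by linarith)

/-- Step 1: the differences are in `BUC`. -/
theorem diff_buc (hJ : Admissible J) {f : ℝ → X} (h : ∀ a > 0, ACos J (diff a f)) :
    ∀ a > 0, BUC J (diff a f) := by
  intro a ha
  have shift : ∀ b > 0, ACos J (fun t => diff a f (t + b)) := by
    intro b hb
    refine ((h (b + a) (by linarith)).sub (h b hb)).congr (fun t ht => ?_)
    simp only [diff]
    rw [show t + (b + a) = t + b + a by ring]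
    abel
  obtain ⟨u, v, hu, hv, hg⟩ := h a ha
  have hvan := vanish hJ hu hv hg (shift 1 one_pos) (shift (1 / 2) (by norm_num))
  exact (hu.add (cos_mul_buc hv hvan)).congr hg

/-! ### the case of `BUC` -/

section buc

variable {f : ℝ → X}

omit [NormedSpace ℝ X] in
lemma Admissible.loc (hJ : Admissible J) (hf : LocInt J f) {t : ℝ} (ht : t ∈ J) (c : ℝ) :
    IntegrableOn f (Icc t (t + c)) :=
  hf t (t + c) (fun _ hs => hJ.up ht hs.1)

omit [NormedSpace ℝ X] in
lemma Admissible.int (hJ : Admissible J) (hf : LocInt J f) {t : ℝ} (ht : t ∈ J) {c : ℝ}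
    (hc : 0 ≤ c) : IntervalIntegrable (fun s => f (t + s)) volume 0 c := by
  have h1 : IntervalIntegrable f volume t (t + c) := by
    rw [intervalIntegrable_iff_integrableOn_Icc_of_le (by linarith)]
    exact hJ.loc hf ht c
  have h2 := h1.comp_add_left t
  simpa using h2

omit [NormedSpace ℝ X] in
/-- translates are measurable on `[0, 1]` -/
lemma Admissible.meas (hJ : Admissible J) (hf : LocInt J f) {t : ℝ} (ht : t ∈ J) :
    AEStronglyMeasurable (fun s => f (t + s)) (volume.restrict (Icc 0 1)) := by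
  have h1 := hJ.int hf ht (c := 1) zero_le_one
  rw [intervalIntegrable_iff_integrableOn_Icc_of_le zero_le_one] at h1
  exact h1.aestronglyMeasurable

omit [NormedSpace ℝ X] in
/-- the differences are uniformly bounded for small shifts -/
lemma small_bound (hJ : Admissible J) (hf : LocInt J f)
    (h : ∀ a > 0, BUC J (diff a f)) :
    ∃ C : ℝ, ∃ η > 0, ∀ s, 0 ≤ s → s < η → ∀ t ∈ J, ‖diff s f t‖ ≤ C := by
  set E : ℕ → Set ℝ := fun n => {s | ∀ q : ℚ, (q : ℝ) ∈ J → ‖f (q + s) - f q‖ ≤ n} with hE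
  have hEm : ∀ n, NullMeasurableSet (E n) (volume.restrict (Icc 0 1)) := by
    intro n
    have : E n = ⋂ q : ℚ, {s | (q : ℝ) ∈ J → ‖f (q + s) - f q‖ ≤ n} := by
      ext s; simp [hE]
    rw [this]
    refine NullMeasurableSet.iInter fun q => ?_
    by_cases hq : (q : ℝ) ∈ J
    · have hm : AEMeasurable (fun s => ‖f (q + s) - f q‖) (volume.restrict (Icc 0 1)) :=
        ((hJ.meas hf hq).sub aestronglyMeasurable_const).norm.aemeasurable
      have := nullMeasurableSet_le hm (aemeasurable_const (b := (n : ℝ)))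
      simpa [hq] using this
    · have : {s : ℝ | (q : ℝ) ∈ J → ‖f (q + s) - f q‖ ≤ n} = univ := by ext s; simp [hq]
      rw [this]
      exact MeasurableSet.univ.nullMeasurableSet
  have hcov : Icc (0 : ℝ) 1 ⊆ ⋃ n, E n := by
    intro s hs
    rw [mem_iUnion]
    rcases eq_or_lt_of_le hs.1 with h0 | h0
    · exact ⟨0, fun q _ => by rw [← h0]; simp⟩
    · obtain ⟨⟨C, hC⟩, -⟩ := h s h0
      obtain ⟨n, hn⟩ := exists_nat_ge C
      exact ⟨n, fun q hq => (hC q hq).trans hn⟩
  obtain ⟨n, hn⟩ : ∃ n, 0 < (volume.restrict (Icc (0 : ℝ) 1)) (E n) := by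
    apply exists_measure_pos_of_not_measure_iUnion_null
    intro h0
    have h1 : (volume.restrict (Icc (0 : ℝ) 1)) (Icc 0 1) = 0 := measure_mono_null hcov h0
    rw [Measure.restrict_apply measurableSet_Icc, inter_self, Real.volume_Icc] at h1
    norm_num at h1
  obtain ⟨S₀, hS₀, hS₀m, hS₀e⟩ := (hEm n).exists_measurable_subset_ae_eq
  set S := S₀ ∩ Icc (0 : ℝ) 1 with hS
  have hSpos : 0 < volume S := by
    rw [hS, ← Measure.restrict_apply hS₀m, measure_congr hS₀e]
    exact hn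
  have hSm : MeasurableSet S := hS₀m.inter measurableSet_Icc
  have hst := Measure.sub_mem_nhds_zero_of_addHaar_pos volume S hSm hSpos
  obtain ⟨η, hη, hball⟩ := Metric.mem_nhds_iff.mp hst
  have hbd : ∀ e ∈ S, ∀ t ∈ J, ‖f (t + e) - f t‖ ≤ n := by
    intro e he t ht
    rcases eq_or_lt_of_le he.2.1 with h0 | h0
    · rw [← h0]; simp
    · obtain ⟨-, huc⟩ := h e h0
      rw [Metric.uniformContinuousOn_iff] at huc
      apply le_of_forall_pos_le_add
      intro ε hε
      obtain ⟨δ, hδ, hd⟩ := huc ε hε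
      obtain ⟨q, hq1, hq2⟩ := exists_rat_btwn (show t < t + δ by linarith)
      have hqJ : (q : ℝ) ∈ J := hJ.up ht hq1.le
      have h5 := hd t ht q hqJ (by
        rw [Real.dist_eq, abs_sub_comm, abs_of_pos (by linarith)]; linarith)
      have h6 := hS₀ he.1 q hqJ
      rw [dist_eq_norm] at h5
      simp only [diff] at h5
      calc ‖f (t + e) - f t‖ = ‖(f (q + e) - f q) + ((f (t + e) - f t) - (f (q + e) - f q))‖ := by
            congr 1; abel
        _ ≤ _ := (norm_add_le _ _).trans (add_le_add h6 h5.le)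
  refine ⟨n + n, η, hη, fun s hs0 hsη t ht => ?_⟩
  have hmem : s ∈ S - S := hball (by rw [Metric.mem_ball, Real.dist_eq, sub_zero, abs_of_nonneg hs0]; exact hsη)
  obtain ⟨e, he, e', he', hee⟩ := mem_sub.mp hmem
  have h1 := hbd e he t ht
  have h2 := hbd e' he' (t + s) (hJ.up ht (by linarith))
  have e1 : t + s + e' = t + e := by rw [← hee]; ring
  rw [e1] at h2
  calc ‖diff s f t‖ = ‖(f (t + e) - f t) - (f (t + e) - f (t + s))‖ := by
        simp only [diff]; congr 1; abel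
    _ ≤ _ := (norm_sub_le _ _).trans (add_le_add h1 h2)

omit [NormedSpace ℝ X] in
/-- the differences are uniformly bounded for bounded shifts -/
lemma bound (hJ : Admissible J) (hne : J.Nonempty) (hf : LocInt J f)
    (h : ∀ a > 0, BUC J (diff a f)) (c : ℝ) (hc : 0 ≤ c) :
    ∃ C : ℝ, 0 ≤ C ∧ ∀ s, 0 ≤ s → s ≤ c → ∀ t ∈ J, ‖diff s f t‖ ≤ C := by
  obtain ⟨C, η, hη, hC⟩ := small_bound hJ hf h
  obtain ⟨t₀, ht₀⟩ := hne
  have hC0 : 0 ≤ C := (norm_nonneg _).trans (hC 0 le_rfl hη t₀ ht₀)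
  have key : ∀ m : ℕ, ∀ s, 0 ≤ s → s < η → ∀ t ∈ J, ‖f (t + m * s) - f t‖ ≤ m * C := by
    intro m s hs hsη t ht
    induction m with
    | zero => simp
    | succ m ih =>
      have hms : 0 ≤ (m : ℝ) * s := by positivity
      have h1 := hC s hs hsη (t + m * s) (hJ.up ht (by linarith))
      simp only [diff] at h1
      have e : t + ((m + 1 : ℕ) : ℝ) * s = t + m * s + s := by push_cast; ring
      rw [e]
      calc ‖f (t + m * s + s) - f t‖ = ‖(f (t + m * s + s) - f (t + m * s)) +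
            (f (t + m * s) - f t)‖ := by congr 1; abel
        _ ≤ C + m * C := (norm_add_le _ _).trans (add_le_add h1 ih)
        _ = ((m + 1 : ℕ) : ℝ) * C := by push_cast; ring
  obtain ⟨N, hN⟩ := exists_nat_gt (c / η)
  have hcη : 0 ≤ c / η := by positivity
  have hN0 : (0 : ℝ) < N := hcη.trans_lt hN
  refine ⟨N * C, by positivity, fun s hs hsc t ht => ?_⟩
  have h1 := key N (s / N) (by positivity) (by
    rw [div_lt_iff₀ hN0]
    rw [div_lt_iff₀ hη] at hN
    linarith) t ht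
  rw [mul_div_cancel₀ _ hN0.ne'] at h1
  exact h1

/-- `BUC(J, X)` satisfies `(Δ)`. -/
theorem buc_delta [CompleteSpace X] (hJ : Admissible J) (hf : LocInt J f)
    (h : ∀ a > 0, BUC J (diff a f)) {c : ℝ} (hc : 0 < c) :
    BUC J (fun t => f t - mean c f t) := by
  rcases J.eq_empty_or_nonempty with rfl | hne
  · exact ⟨⟨0, fun t ht => absurd ht (notMem_empty t)⟩, by
      rw [Metric.uniformContinuousOn_iff]
      exact fun ε _ => ⟨1, one_pos, fun x hx => absurd hx (notMem_empty x)⟩⟩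
  obtain ⟨C, hC0, hC⟩ := bound hJ hne hf h c hc.le
  have hint : ∀ t ∈ J, IntervalIntegrable (fun s => diff s f t) volume 0 c := fun t ht =>
    (hJ.int hf ht hc.le).sub intervalIntegrable_const
  have hG : ∀ t ∈ J, f t - mean c f t = -(c⁻¹ • ∫ s in (0 : ℝ)..c, diff s f t) := by
    intro t ht
    have h1 : ∫ s in (0 : ℝ)..c, diff s f t = (∫ s in t..(t + c), f s) - c • f t := by
      simp only [diff]
      rw [intervalIntegral.integral_sub (hJ.int hf ht hc.le) intervalIntegrable_const,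
        intervalIntegral.integral_const, intervalIntegral.integral_comp_add_left (fun s => f s) t]
      simp
    rw [h1, mean, smul_sub, smul_smul, inv_mul_cancel₀ hc.ne', one_smul]
    abel
  refine BUC.congr (f := fun t => -(c⁻¹ • ∫ s in (0 : ℝ)..c, diff s f t)) ⟨⟨C, fun t ht => ?_⟩, ?_⟩
    hG
  · rw [norm_neg, norm_smul, Real.norm_eq_abs, abs_of_pos (inv_pos.mpr hc)]
    have h1 : ‖∫ s in (0 : ℝ)..c, diff s f t‖ ≤ C * |c - 0| := by
      apply intervalIntegral.norm_integral_le_of_norm_le_const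
      intro s hs
      rw [uIoc_of_le hc.le] at hs
      exact hC s hs.1.le hs.2 t ht
    rw [sub_zero, abs_of_pos hc] at h1
    calc c⁻¹ * ‖∫ s in (0 : ℝ)..c, diff s f t‖ ≤ c⁻¹ * (C * c) := by gcongr
      _ = C := by field_simp
  · rw [Metric.uniformContinuousOn_iff]
    by_contra hcon
    push Not at hcon
    obtain ⟨ε, hε, hbad⟩ := hcon
    choose x hx y hy hxy hfar using fun n : ℕ => hbad (1 / ((n : ℝ) + 1)) (by positivity)
    have hlim : Tendsto (fun n => ∫ s in (0 : ℝ)..c, (diff s f (x n) - diff s f (y n))) atTop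
        (𝓝 (∫ s in (0 : ℝ)..c, (0 : X))) := by
      apply intervalIntegral.tendsto_integral_filter_of_dominated_convergence (fun _ => C + C)
      · refine Eventually.of_forall fun n => ?_
        rw [uIoc_of_le hc.le]
        exact ((hint _ (hx n)).sub (hint _ (hy n))).aestronglyMeasurable
      · refine Eventually.of_forall fun n => Eventually.of_forall fun s hs => ?_
        rw [uIoc_of_le hc.le] at hs
        exact (norm_sub_le _ _).trans (add_le_add (hC s hs.1.le hs.2 _ (hx n))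
          (hC s hs.1.le hs.2 _ (hy n)))
      · exact intervalIntegrable_const
      · refine Eventually.of_forall fun s hs => ?_
        rw [uIoc_of_le hc.le] at hs
        obtain ⟨-, huc⟩ := h s hs.1
        rw [Metric.uniformContinuousOn_iff] at huc
        rw [Metric.tendsto_atTop]
        intro δ hδ
        obtain ⟨ρ, hρ, hρ'⟩ := huc δ hδ
        obtain ⟨N, hN⟩ := exists_nat_one_div_lt hρ
        refine ⟨N, fun n hn => ?_⟩
        rw [dist_zero_right, ← dist_eq_norm]
        apply hρ' _ (hx n) _ (hy n)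
        refine (hxy n).trans_le (le_trans ?_ hN.le)
        gcongr
    rw [intervalIntegral.integral_zero] at hlim
    have hlim2 : Tendsto (fun n => ‖∫ s in (0 : ℝ)..c, (diff s f (x n) - diff s f (y n))‖) atTop
        (𝓝 0) := by simpa using hlim.norm
    have hev := hlim2.eventually_lt_const (show (0 : ℝ) < ε * c by positivity)
    obtain ⟨n, hn⟩ := hev.exists
    have h1 := hfar n
    rw [dist_eq_norm] at h1
    have e : -(c⁻¹ • ∫ s in (0 : ℝ)..c, diff s f (x n)) - -(c⁻¹ • ∫ s in (0 : ℝ)..c, diff s f (y n))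
        = -(c⁻¹ • ∫ s in (0 : ℝ)..c, (diff s f (x n) - diff s f (y n))) := by
      rw [intervalIntegral.integral_sub (hint _ (hx n)) (hint _ (hy n)), smul_sub]
      abel
    rw [e, norm_neg, norm_smul, Real.norm_eq_abs, abs_of_pos (inv_pos.mpr hc),
      inv_mul_eq_div, le_div_iff₀ hc] at h1
    linarith

omit [NormedSpace ℝ X] in
lemma LInfty.locInt (hf : LInfty J f) : LocInt J f := by
  obtain ⟨hm, C, hC⟩ := hf
  intro a b hab
  exact Integrable.of_bound (hm.mono_set hab) C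
    ((ae_restrict_mem measurableSet_Icc).mono fun t ht => hC t (hab ht))

lemma mean_buc (hJ : Admissible J) (hf : LInfty J f) {c : ℝ} (hc : 0 < c) :
    BUC J (mean c f) := by
  have hli := hf.locInt
  obtain ⟨-, C₀, hC₀⟩ := hf
  set C := max C₀ 0 with hCd
  have hC0 : 0 ≤ C := le_max_right _ _
  have hC : ∀ t ∈ J, ‖f t‖ ≤ C := fun t ht => (hC₀ t ht).trans (le_max_left _ _)
  have hI : ∀ a ∈ J, ∀ b ∈ J, IntervalIntegrable f volume a b := by
    intro a ha b hb
    rcases le_total a b with hab | hab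
    · rw [intervalIntegrable_iff_integrableOn_Icc_of_le hab]
      exact hli a b (fun _ hs => hJ.up ha hs.1)
    · apply IntervalIntegrable.symm
      rw [intervalIntegrable_iff_integrableOn_Icc_of_le hab]
      exact hli b a (fun _ hs => hJ.up hb hs.1)
  have hnorm : ∀ a ∈ J, ∀ b ∈ J, ‖∫ s in a..b, f s‖ ≤ C * |b - a| := by
    intro a ha b hb
    apply intervalIntegral.norm_integral_le_of_norm_le_const
    intro s hs
    apply hC
    rcases le_total a b with hab | hab
    · rw [uIoc_of_le hab] at hs; exact hJ.up ha hs.1.le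
    · rw [uIoc_of_ge hab] at hs; exact hJ.up hb hs.1.le
  have hcpos := inv_pos.mpr hc
  refine ⟨⟨C, fun t ht => ?_⟩, ?_⟩
  · rw [mean, norm_smul, Real.norm_eq_abs, abs_of_pos hcpos]
    have h1 := hnorm t ht (t + c) (hJ.up ht (by linarith))
    rw [add_sub_cancel_left, abs_of_pos hc] at h1
    calc c⁻¹ * ‖∫ s in t..(t + c), f s‖ ≤ c⁻¹ * (C * c) := by gcongr
      _ = C := by field_simp
  · rw [Metric.uniformContinuousOn_iff]
    intro ε hε
    refine ⟨ε / (c⁻¹ * (C + C) + 1), by positivity, fun x hx y hy hxy => ?_⟩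
    have hxc := hJ.up hx (show x ≤ x + c by linarith)
    have hyc := hJ.up hy (show y ≤ y + c by linarith)
    rw [dist_eq_norm, mean, mean, ← smul_sub,
      intervalIntegral.integral_interval_sub_interval_comm (hI _ hx _ hxc) (hI _ hy _ hyc)
        (hI _ hx _ hy), norm_smul, Real.norm_eq_abs, abs_of_pos hcpos]
    have h1 := hnorm x hx y hy
    have h2 := hnorm (x + c) hxc (y + c) hyc
    rw [add_sub_add_right_eq_sub] at h2
    rw [Real.dist_eq, abs_sub_comm, lt_div_iff₀ (by positivity)] at hxy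
    have h3 : ‖(∫ s in x..y, f s) - ∫ s in (x + c)..(y + c), f s‖ ≤ (C + C) * |y - x| := by
      refine (norm_sub_le _ _).trans ?_
      linarith
    have h4 := abs_nonneg (y - x)
    calc c⁻¹ * ‖(∫ s in x..y, f s) - ∫ s in (x + c)..(y + c), f s‖ ≤
        c⁻¹ * ((C + C) * |y - x|) := by gcongr
      _ ≤ |y - x| * (c⁻¹ * (C + C) + 1) := by nlinarith
      _ < ε := hxy

end buc

/-- **Main result.** For every admissible `J` and every Banach space `X`, the space
`A_cos = BUC + cos(t²) BUC` satisfies `(Δ)` (Q1) and `(L_b)` (Q2); in both cases the conclusion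
even holds in `BUC`. -/
theorem result (X : Type*) [NormedAddCommGroup X] [NormedSpace ℝ X] [CompleteSpace X]
    (J : Set ℝ) (hJ : Admissible J) :
    (∀ f : ℝ → X, LocInt J f → (∀ a > 0, ACos J (diff a f)) →
      ∀ h > 0, ACos J (fun t => f t - mean h f t) ∧ BUC J (fun t => f t - mean h f t)) ∧
    (∀ f : ℝ → X, LInfty J f → (∀ a > 0, ACos J (diff a f)) → ACos J f ∧ BUC J f) ∧
    (∀ f : ℝ → X, (∀ a > 0, ACos J (diff a f)) → ∀ a > 0, BUC J (diff a f)) := by
  have h1 : ∀ f : ℝ → X, LocInt J f → (∀ a > 0, ACos J (diff a f)) →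
      ∀ h > 0, BUC J (fun t => f t - mean h f t) := fun f hf hd h hh =>
    buc_delta hJ hf (diff_buc hJ hd) hh
  refine ⟨fun f hf hd h hh => ⟨(h1 f hf hd h hh).acos, h1 f hf hd h hh⟩, fun f hf hd => ?_,
    fun f hd => diff_buc hJ hd⟩
  have h2 := ((h1 f hf.locInt hd 1 one_pos).add (mean_buc hJ hf one_pos)).congr
    (g := f) (fun t _ => by simp)
  exact ⟨h2.acos, h2⟩

end Pool.Agent.Results.MP_ee4cf4_an.DifferencesCos
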